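import Pool.Agent.N213.GF.D

set_option autoImplicit false

/-! Random fields on the digits, only some of which are flexible (after `Pool.Agent.N213.GF.B`, `C`, `D`, where all the digits
are flexible): the averages over separated blocks, and the exponential sums. -/

namespace Pool.Agent.L7h18.RM
open Finset
open Pool.Agent.H807R2.Dav
open Pool.Agent.W93.AU
open Pool.Agent.W93.DG
open Pool.Agent.N213.GF

/-- A random integer `v < b ^ k` (with the probabilities `p v`) whose digits form a Markov random field on a graph of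
positions `0, …, k - 1` with degrees at most `Δ`, and such that the digits at the positions in `I` are flexible. -/
structure FieldJ (b k Δ : ℕ) (η : ℝ) (I : Finset ℕ) (A : ℕ → ℕ → Prop) (p : ℕ → ℝ) : Prop where
  symm : ∀ i j, A i j → A j i
  degree : ∀ i < k, (nb k A i).card ≤ Δ + 1
  nonneg : ∀ v, 0 ≤ p v
  sum : ∑ v ∈ range (b ^ k), p v = 1
  markov : ∀ S : Finset ℕ, ∀ v < b ^ k, ∀ w < b ^ k, (∀ i ∈ S, ∀ j < k, j ∉ S → A i j → dig b v j = dig b w j) →
    p v * p w = p (splice b k S v w) * p (splice b k S w v)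
  flexible : ∀ v < b ^ k, p v ≠ 0 → ∀ i < k, i ∈ I → ∃ x < b ^ k, ∃ y < b ^ k, Off b (nb k A i) x v ∧ Off b {i} y x ∧
    dig b y i ≠ dig b x i ∧ η * mass b k p (nb k A i) v ≤ p x ∧ η * mass b k p (nb k A i) v ≤ p y

variable {b k Δ : ℕ} {η : ℝ} {I : Finset ℕ} {A : ℕ → ℕ → Prop} {p : ℕ → ℝ}

lemma mass_pos (hF : FieldJ b k Δ η I A p) (S : Finset ℕ) (v : ℕ) (hv : v < b ^ k) (hpv : p v ≠ 0) : 0 < mass b k p S v := by
  rw [mass_eq]
  have h1 : 0 < p v := lt_of_le_of_ne (hF.nonneg v) hpv.symm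
  have h2 : p v ≤ ∑ w ∈ cl b k S v, p w :=
    single_le_sum (f := p) (fun w _ => hF.nonneg w) (mem_cl.2 ⟨hv, off_refl S v⟩)
  linarith

lemma mass_nonneg (hF : FieldJ b k Δ η I A p) (S : Finset ℕ) (v : ℕ) : 0 ≤ mass b k p S v := by
  rw [mass_eq]
  exact sum_nonneg fun w _ => hF.nonneg w

/-- the average over the block around `i` does not depend on the digits in a separated block -/
lemma avg_inv (hb : 2 ≤ b) (hF : FieldJ b k Δ η I A p) (i j : ℕ) (hij : Sep k A i j) (h : ℕ → ℂ)
    (hh : ∀ v < b ^ k, ∀ w < b ^ k, (∀ x ∈ nb k A i, dig b v x = dig b w x) → h v = h w)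
    (v v' : ℕ) (hv : v < b ^ k) (hv' : v' < b ^ k) (hoff : Off b (nb k A j) v v') :
    (p v' : ℂ) * csum b k p h (nb k A i) v = p v * csum b k p h (nb k A i) v' := by
  have hS : ∀ x ∈ nb k A i, dig b v x = dig b v' x := by
    intro x hx
    apply hoff
    intro hx'
    exact (hij x hx x hx').1 rfl
  unfold csum
  rw [mul_sum, mul_sum]
  apply splice_bij hb _ v v' hv hv' (fun w => (p v' : ℂ) * ((p w : ℂ) * h w)) (fun w => (p v : ℂ) * ((p w : ℂ) * h w))
  intro w hw
  rw [mem_cl] at hw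
  have h1 : h w = h (splice b k (nb k A i) w v') := by
    apply hh w hw.1 _ (splice_lt b k hb _ _ _)
    intro x hx
    rw [dig_splice b k hb _ w v' hw.1 hv', if_pos hx]
  have h2 := hF.markov (nb k A i) w hw.1 v' hv' (by
    intro x hx y hy hy' hxy
    rw [hw.2 y hy']
    apply hoff
    intro hyj
    exact (hij x hx y hyj).2 hxy)
  have h3 : splice b k (nb k A i) v' w = v := by
    apply dig_ext b k hb _ _ (splice_lt b k hb _ _ _) hv
    intro x
    rw [dig_splice b k hb _ v' w hv' hw.1]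
    split_ifs with hx
    · exact (hS x hx).symm
    · exact hw.2 x hx
  rw [h3] at h2
  have h4 : (p w : ℂ) * p v' = p (splice b k (nb k A i) w v') * p v := by exact_mod_cast h2
  rw [h1]
  linear_combination (h (splice b k (nb k A i) w v')) * h4

lemma avg_inv' (hb : 2 ≤ b) (hF : FieldJ b k Δ η I A p) (i j : ℕ) (hij : Sep k A i j) (h : ℕ → ℂ)
    (hh : ∀ v < b ^ k, ∀ w < b ^ k, (∀ x ∈ nb k A i, dig b v x = dig b w x) → h v = h w)
    (v v' : ℕ) (hv : v < b ^ k) (hv' : v' < b ^ k) (hpv : p v ≠ 0) (hpv' : p v' ≠ 0) (hoff : Off b (nb k A j) v v') :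
    avg b k p h (nb k A i) v = avg b k p h (nb k A i) v' := by
  have h1 := avg_inv hb hF i j hij h hh v v' hv hv' hoff
  have h2 := avg_inv hb hF i j hij (fun _ => 1) (fun _ _ _ _ _ => rfl) v v' hv hv' hoff
  rw [← mass_csum, ← mass_csum] at h2
  have m1 : (mass b k p (nb k A i) v : ℂ) ≠ 0 := by exact_mod_cast (mass_pos hF _ v hv hpv).ne'
  have m2 : (mass b k p (nb k A i) v' : ℂ) ≠ 0 := by exact_mod_cast (mass_pos hF _ v' hv' hpv').ne'
  have q1 : (p v : ℂ) ≠ 0 := by exact_mod_cast hpv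
  have q2 : (p v' : ℂ) ≠ 0 := by exact_mod_cast hpv'
  unfold avg
  rw [div_eq_div_iff m1 m2]
  apply mul_left_cancel₀ (mul_ne_zero q1 q2)
  linear_combination (p v * mass b k p (nb k A i) v') * h1 - (p v * csum b k p h (nb k A i) v') * h2

/-- averaging over one block -/
lemma average (hF : FieldJ b k Δ η I A p) (S : Finset ℕ) (h G : ℕ → ℂ)
    (hG : ∀ v < b ^ k, ∀ w < b ^ k, p v ≠ 0 → p w ≠ 0 → Off b S v w → G v = G w) :
    ∑ v ∈ range (b ^ k), (p v : ℂ) * (G v * h v) = ∑ v ∈ range (b ^ k), (p v : ℂ) * (G v * avg b k p h S v) := by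
  classical
  have h1 : ∀ v ∈ range (b ^ k), (p v : ℂ) * (G v * avg b k p h S v) =
      ∑ w ∈ range (b ^ k), if Off b S w v then (p v : ℂ) * G v * (p w * h w) / mass b k p S v else 0 := by
    intro v _
    rw [← sum_filter, ← sum_div, ← mul_sum]
    unfold avg csum cl
    ring
  rw [sum_congr rfl h1, sum_comm]
  apply sum_congr rfl
  intro w hw
  rw [mem_range] at hw
  by_cases hpw : p w = 0
  · rw [hpw, Complex.ofReal_zero, zero_mul]
    symm
    apply sum_eq_zero
    intro v _
    rw [zero_mul, mul_zero, zero_div, ite_self]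
  · have m1 := mass_pos hF S w hw hpw
    have h2 : ∀ v ∈ range (b ^ k), (if Off b S w v then (p v : ℂ) * G v * (p w * h w) / mass b k p S v else 0) =
        if Off b S v w then (p v : ℂ) * (G w * (p w * h w) / mass b k p S w) else 0 := by
      intro v hv
      rw [mem_range] at hv
      by_cases hvw : Off b S v w
      · rw [if_pos hvw, if_pos (off_symm hvw)]
        have e1 : mass b k p S v = mass b k p S w := by rw [mass_eq, mass_eq, cl_eq hvw]
        by_cases hpv : p v = 0
        · rw [hpv, Complex.ofReal_zero]; ring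
        · rw [e1, hG v hv w hw hpv hpw hvw]
          ring
      · rw [if_neg hvw, if_neg (fun h => hvw (off_symm h))]
    rw [sum_congr rfl h2, ← sum_filter, ← sum_mul]
    have h3 : ∑ v ∈ (range (b ^ k)).filter (fun v => Off b S v w), (p v : ℂ) = mass b k p S w := by
      rw [mass_eq]
      unfold cl
      push_cast
      rfl
    rw [h3]
    have m2 : (mass b k p S w : ℂ) ≠ 0 := by exact_mod_cast m1.ne'
    field_simp

/-- the averages over separated blocks -/
theorem blocks (hb : 2 ≤ b) (hF : FieldJ b k Δ η I A p) (ρ : ℝ) (hρ : 0 ≤ ρ) (h : ℕ → ℕ → ℂ) (S : Finset ℕ) :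
    (∀ i ∈ S, ∀ v < b ^ k, ∀ w < b ^ k, (∀ x ∈ nb k A i, dig b v x = dig b w x) → h i v = h i w) →
    (∀ i ∈ S, ∀ v < b ^ k, p v ≠ 0 → ‖csum b k p (h i) (nb k A i) v‖ ≤ ρ * mass b k p (nb k A i) v) →
    (∀ i ∈ S, ∀ j ∈ S, i ≠ j → Sep k A i j) →
    ∀ G : ℕ → ℂ, (∀ i ∈ S, ∀ v < b ^ k, ∀ w < b ^ k, p v ≠ 0 → p w ≠ 0 → Off b (nb k A i) v w → G v = G w) →
    ‖∑ v ∈ range (b ^ k), (p v : ℂ) * (G v * ∏ i ∈ S, h i v)‖ ≤ ρ ^ S.card * ∑ v ∈ range (b ^ k), p v * ‖G v‖ := by
  classical
  induction S using Finset.induction_on with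
  | empty =>
    intro _ _ _ G _
    simp only [prod_empty, mul_one, card_empty, pow_zero, one_mul]
    refine (norm_sum_le _ _).trans (le_of_eq ?_)
    apply sum_congr rfl
    intro v _
    rw [norm_mul, Complex.norm_real, Real.norm_of_nonneg (hF.nonneg v)]
  | insert i S hi ih =>
    intro h1 h2 h3 G hG
    have e1 : ∀ v ∈ range (b ^ k), (p v : ℂ) * (G v * ∏ j ∈ insert i S, h j v) = p v * ((G v * ∏ j ∈ S, h j v) * h i v) := by
      intro v _
      rw [prod_insert hi]
      ring
    rw [sum_congr rfl e1, average hF (nb k A i) (h i) (fun v => G v * ∏ j ∈ S, h j v) (by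
      intro v hv w hw hpv hpw hoff
      rw [hG i (mem_insert_self i S) v hv w hw hpv hpw hoff]
      congr 1
      apply prod_congr rfl
      intro j hj
      apply h1 j (mem_insert_of_mem hj) v hv w hw
      intro x hx
      apply hoff
      intro hx'
      exact (h3 i (mem_insert_self i S) j (mem_insert_of_mem hj) (fun h => hi (h ▸ hj)) x hx' x hx).1 rfl)]
    have e2 : ∀ v ∈ range (b ^ k), (p v : ℂ) * (G v * (∏ j ∈ S, h j v) * avg b k p (h i) (nb k A i) v) =
        p v * ((G v * avg b k p (h i) (nb k A i) v) * ∏ j ∈ S, h j v) := by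
      intro v _
      ring
    rw [sum_congr rfl e2]
    have h4 := ih (fun j hj => h1 j (mem_insert_of_mem hj)) (fun j hj => h2 j (mem_insert_of_mem hj))
      (fun j hj j' hj' => h3 j (mem_insert_of_mem hj) j' (mem_insert_of_mem hj'))
      (fun v => G v * avg b k p (h i) (nb k A i) v) (by
        intro j hj v hv w hw hpv hpw hoff
        rw [hG j (mem_insert_of_mem hj) v hv w hw hpv hpw hoff]
        congr 1
        exact avg_inv' hb hF i j (h3 i (mem_insert_self i S) j (mem_insert_of_mem hj) (fun h => hi (h ▸ hj))) (h i)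
          (h1 i (mem_insert_self i S)) v w hv hw hpv hpw hoff)
    refine h4.trans ?_
    rw [card_insert_of_notMem hi, pow_succ, mul_assoc]
    apply mul_le_mul_of_nonneg_left _ (pow_nonneg hρ _)
    rw [mul_sum]
    apply sum_le_sum
    intro v hv
    rw [mem_range] at hv
    by_cases hpv : p v = 0
    · rw [hpv, zero_mul, zero_mul, mul_zero]
    · have m1 := mass_pos hF (nb k A i) v hv hpv
      have h5 : ‖avg b k p (h i) (nb k A i) v‖ ≤ ρ := by
        unfold avg
        rw [norm_div, Complex.norm_real, Real.norm_of_nonneg m1.le, div_le_iff₀ m1]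
        exact h2 i (mem_insert_self i S) v hv hpv
      rw [norm_mul]
      have h6 := hF.nonneg v
      calc p v * (‖G v‖ * ‖avg b k p (h i) (nb k A i) v‖) ≤ p v * (‖G v‖ * ρ) := by gcongr
        _ = _ := by ring



/-- two flexible values -/
lemma two_vals (hF : FieldJ b k Δ η I A p) (i : ℕ) (hi : i < k) (hiI : i ∈ I) (h : ℕ → ℂ) (h1 : ∀ w, ‖h w‖ ≤ 1) (c : ℝ)
    (hc : ∀ x < b ^ k, ∀ y < b ^ k, Off b {i} y x → dig b y i ≠ dig b x i → ‖h x + h y‖ ≤ 2 - c)
    (v : ℕ) (hv : v < b ^ k) (hpv : p v ≠ 0) (hη : 0 ≤ η) :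
    ‖csum b k p h (nb k A i) v‖ ≤ (1 - η * c) * mass b k p (nb k A i) v := by
  classical
  obtain ⟨x, hx, y, hy, hxv, hyx, hne, hpx, hpy⟩ := hF.flexible v hv hpv i hi hiI
  obtain ⟨W, hW⟩ : ∃ W, W = mass b k p (nb k A i) v := ⟨_, rfl⟩
  rw [← hW] at hpx hpy ⊢
  have hW0 : 0 ≤ W := by rw [hW]; exact mass_nonneg hF _ _
  have hi1 : i ∈ nb k A i := self_mem hi
  have hxc : x ∈ cl b k (nb k A i) v := mem_cl.2 ⟨hx, hxv⟩
  have hyc : y ∈ cl b k (nb k A i) v := by
    refine mem_cl.2 ⟨hy, fun j hj => ?_⟩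
    rw [← hxv j hj]
    apply hyx
    rw [mem_singleton]
    intro h
    exact hj (h ▸ hi1)
  have hxy : x ≠ y := fun h => hne (by rw [h])
  have e1 : csum b k p h (nb k A i) v = ∑ w ∈ cl b k (nb k A i) v,
      ((p w - (if w = x then η * W else 0) - (if w = y then η * W else 0) : ℝ) : ℂ) * h w + (η * W : ℝ) * (h x + h y) := by
    have e2 : (η * W : ℝ) * (h x + h y) = ∑ w ∈ cl b k (nb k A i) v, ((if w = x then ((η * W : ℝ) : ℂ) * h w else 0) +
        (if w = y then ((η * W : ℝ) : ℂ) * h w else 0)) := by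
      rw [sum_add_distrib, sum_ite_eq' _ x, sum_ite_eq' _ y, if_pos hxc, if_pos hyc]
      ring
    rw [e2, ← sum_add_distrib]
    unfold csum
    apply sum_congr rfl
    intro w _
    split_ifs <;> push_cast <;> ring
  have e3 : ∑ w ∈ cl b k (nb k A i) v, (p w - (if w = x then η * W else 0) - (if w = y then η * W else 0)) = W - 2 * (η * W) := by
    rw [sum_sub_distrib, sum_sub_distrib, sum_ite_eq' _ x, sum_ite_eq' _ y, if_pos hxc, if_pos hyc, hW, ← mass_eq]
    ring
  have e4 : ∀ w ∈ cl b k (nb k A i) v, 0 ≤ p w - (if w = x then η * W else 0) - (if w = y then η * W else 0) := by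
    intro w _
    have := hF.nonneg w
    by_cases hwx : w = x
    · rw [if_pos hwx, if_neg (fun h => hxy (hwx.symm.trans h)), hwx]
      linarith
    · by_cases hwy : w = y
      · rw [if_neg hwx, if_pos hwy, hwy]
        linarith
      · rw [if_neg hwx, if_neg hwy]
        linarith
  rw [e1]
  have hηW : 0 ≤ η * W := mul_nonneg hη hW0
  calc _ ≤ ‖∑ w ∈ cl b k (nb k A i) v,
      ((p w - (if w = x then η * W else 0) - (if w = y then η * W else 0) : ℝ) : ℂ) * h w‖ + ‖((η * W : ℝ) : ℂ) * (h x + h y)‖ := norm_add_le _ _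
    _ ≤ ∑ w ∈ cl b k (nb k A i) v, (p w - (if w = x then η * W else 0) - (if w = y then η * W else 0)) + (η * W) * (2 - c) := by
        apply add_le_add
        · refine (norm_sum_le _ _).trans ?_
          apply sum_le_sum
          intro w hw
          rw [norm_mul, Complex.norm_real, Real.norm_of_nonneg (e4 w hw)]
          exact mul_le_of_le_one_right (e4 w hw) (h1 w)
        · rw [norm_mul, Complex.norm_real, Real.norm_of_nonneg hηW]
          exact mul_le_mul_of_nonneg_left (hc x hx y hy hyx hne) hηW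
    _ = _ := by rw [e3]; ring

/-- the flexibility is at most one half -/
lemma eta_le (hF : FieldJ b k Δ η I A p) (i : ℕ) (hi : i < k) (hiI : i ∈ I) (v : ℕ) (hv : v < b ^ k) (hpv : p v ≠ 0) : η ≤ 1 / 2 := by
  classical
  obtain ⟨x, hx, y, hy, hxv, hyx, hne, hpx, hpy⟩ := hF.flexible v hv hpv i hi hiI
  have hW := mass_pos hF (nb k A i) v hv hpv
  have hi1 : i ∈ nb k A i := self_mem hi
  have hxc : x ∈ cl b k (nb k A i) v := mem_cl.2 ⟨hx, hxv⟩
  have hyc : y ∈ cl b k (nb k A i) v := by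
    refine mem_cl.2 ⟨hy, fun j hj => ?_⟩
    rw [← hxv j hj]
    apply hyx
    rw [mem_singleton]
    intro h
    exact hj (h ▸ hi1)
  have hxy : x ≠ y := fun h => hne (by rw [h])
  have h2 : p x + p y ≤ mass b k p (nb k A i) v := by
    rw [mass_eq, ← sum_pair hxy]
    apply sum_le_sum_of_subset_of_nonneg
    · intro w hw
      rcases mem_insert.1 hw with h | h
      · rw [h]; exact hxc
      · rw [mem_singleton.1 h]; exact hyc
    · intro w _ _
      exact hF.nonneg w
  by_contra hcon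
  push Not at hcon
  have : 1 / 2 * mass b k p (nb k A i) v < η * mass b k p (nb k A i) v := mul_lt_mul_of_pos_right hcon hW
  linarith

/-- the exponential sum -/
theorem char_field (hb : 2 ≤ b) (hF : FieldJ b k Δ η I A p) (c θ : ℝ) (hη : 0 ≤ η) (hηc : η * c ≤ 1) (S : Finset ℕ) (hSk : ∀ i ∈ S, i < k) (hSI : ∀ i ∈ S, i ∈ I)
    (hS : ∀ i ∈ S, ∀ j ∈ S, i ≠ j → Sep k A i j) (hg : ∀ i ∈ S, Gd b c ((b : ℝ) ^ i * θ)) :
    ‖∑ v ∈ range (b ^ k), (p v : ℂ) * ee (v * θ)‖ ≤ (1 - η * c) ^ S.card := by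
  classical
  obtain ⟨f, hf⟩ : ∃ f : ℕ → ℕ → ℂ, f = fun v j => ee (dig b v j * ((b : ℝ) ^ j * θ)) := ⟨_, rfl⟩
  have hf1 : ∀ v j, ‖f v j‖ = 1 := fun v j => by rw [hf]; exact norm_ee _
  obtain ⟨U, hU⟩ : ∃ U, U = S.biUnion (nb k A) := ⟨_, rfl⟩
  have hUk : U ⊆ range k := by
    intro j hj
    rw [hU, mem_biUnion] at hj
    obtain ⟨i, _, hj⟩ := hj
    exact mem_range.2 (mem_nb.1 hj).1
  have e1 : ∀ v ∈ range (b ^ k), (p v : ℂ) * ee (v * θ) = p v * ((∏ j ∈ range k \ U, f v j) * ∏ i ∈ S, ∏ j ∈ nb k A i, f v j) := by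
    intro v hv
    rw [mem_range] at hv
    rw [ee_digits hb v hv θ, ← prod_biUnion, ← hU, prod_sdiff hUk, hf]
    intro i hi j hj hij
    rw [Function.onFun, disjoint_left]
    intro x hx hx'
    exact (hS i hi j hj hij x hx x hx').1 rfl
  rw [sum_congr rfl e1]
  have h1 := blocks hb hF (1 - η * c) (by linarith) (fun i v => ∏ j ∈ nb k A i, f v j) S
    (by
      intro i _ v _ w _ h
      apply prod_congr rfl
      intro j hj
      rw [hf]
      simp only
      rw [h j hj])
    (by
      intro i hi v hv hpv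
      apply two_vals hF i (hSk i hi) (hSI i hi) (fun v => ∏ j ∈ nb k A i, f v j) _ c _ v hv hpv hη
      · intro w
        rw [norm_prod, prod_congr rfl (fun j _ => hf1 w j), prod_const_one]
      · intro x _ y _ hyx hne
        have hi1 : i ∈ nb k A i := self_mem (hSk i hi)
        rw [← mul_prod_erase _ _ hi1, ← mul_prod_erase _ _ hi1]
        have h2 : ∏ j ∈ (nb k A i).erase i, f y j = ∏ j ∈ (nb k A i).erase i, f x j := by
          apply prod_congr rfl
          intro j hj
          rw [hf]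
          simp only
          rw [hyx j (by rw [mem_singleton]; exact ne_of_mem_erase hj)]
        rw [h2, ← add_mul, norm_mul, norm_prod, prod_congr rfl (fun j _ => hf1 x j), prod_const_one, mul_one]
        have h3 := hg i hi
        rw [hf]
        simp only
        rcases lt_or_gt_of_ne hne with h | h
        · rw [add_comm]
          exact h3 _ _ h (dig_lt b x i hb)
        · exact h3 _ _ h (dig_lt b y i hb))
    hS (fun v => ∏ j ∈ range k \ U, f v j)
    (by
      intro i hi v _ w _ _ _ h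
      apply prod_congr rfl
      intro j hj
      rw [hf]
      simp only
      rw [h j (by
        intro h'
        apply (mem_sdiff.1 hj).2
        rw [hU, mem_biUnion]
        exact ⟨i, hi, h'⟩)])
  refine h1.trans (le_of_eq ?_)
  have e2 : ∑ v ∈ range (b ^ k), p v * ‖∏ j ∈ range k \ U, f v j‖ = 1 := by
    rw [← hF.sum]
    apply sum_congr rfl
    intro v _
    rw [norm_prod, prod_congr rfl (fun j _ => hf1 v j), prod_const_one, mul_one]
  rw [e2, mul_one]

/-- the flexibility is at most one half -/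
lemma eta_half (hF : FieldJ b k Δ η I A p) (i : ℕ) (hi : i < k) (hiI : i ∈ I) : η ≤ 1 / 2 := by
  have h1 : ∃ v ∈ range (b ^ k), p v ≠ 0 := by
    by_contra hcon
    push Not at hcon
    have := hF.sum
    rw [sum_congr rfl hcon, sum_const_zero] at this
    norm_num at this
  obtain ⟨v, hv, hpv⟩ := h1
  exact eta_le hF i hi hiI v (mem_range.1 hv) hpv

end Pool.Agent.L7h18.RM
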