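import Pool.Agent.N625.PT.F
import Pool.Agent.L7h18.RM.FJ
import Pool.Agent.H491R3.AM2
import Pool.Agent.Y885.LW2

set_option autoImplicit false

/-! Random integers whose digits form a Markov random field on a graph of positions of bounded degree, up to two fifths of
the digits being prescribed: all the multiples have a thin large spectrum (after `Pool.Agent.N625.PT.E`, where all the blocks
of digits can be exchanged), and Goldbach's problem for all the integers near them. -/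

namespace Pool.Agent.L7h18.RM
open Finset
open Pool.Agent.H807R2.Dav
open Pool.Agent.W93.AU
open Pool.Agent.W93.DG
open Pool.Agent.Y885 (Thin Dense FewFar Far TLaw Spec thin_of Rich)
open Pool.Agent.H491R3.AM (gd_far)
open Pool.Agent.N213.GF
open Pool.Agent.N625.PT (ex ex_le log_ex val_ex pow_le_pow_digits union)

variable {b : ℕ}

/-- the factor of the frequencies -/
def Nf (b : ℕ) (κ : ℤ) : ℕ := b.factorial * κ.natAbs

lemma Nf_pos (b : ℕ) (κ : ℤ) (hκ : κ ≠ 0) : 1 ≤ Nf b κ := by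
  unfold Nf
  exact Nat.mul_pos b.factorial_pos (Int.natAbs_pos.2 hκ)

/-- the shifted flexible positions are dense -/
lemma dense_shift (δ : ℝ) (D k e ℓ E W K : ℕ) (hE : 1 ≤ E) (hEδ2 : 3 / (E : ℝ) ≤ δ) (hk : 3 ≤ k) (hK : K = k + e) (hℓ : ℓ ≤ e)
    (he : (e : ℝ) ≤ W * Real.log k) (J : Finset ℕ) (hR : Rich δ D k J) :
    Dense E (D + 4 * (W + 1)) K (J.image (fun i => i + ℓ)) := by
  obtain ⟨hJk, hbot, htop, hall⟩ := hR
  have hcard : ∀ P Q : ℕ → Prop, ∀ [DecidablePred P] [DecidablePred Q], (∀ j ∈ J, (P (j + ℓ) ↔ Q j)) →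
      ((J.image (fun i => i + ℓ)).filter P).card = (J.filter Q).card := by
    intro P Q _ _ h
    rw [filter_image, card_image_of_injective _ (add_left_injective ℓ)]
    congr 1
    apply filter_congr
    intro j hj
    exact h j hj
  have hEr : (1 : ℝ) ≤ E := by exact_mod_cast hE
  have hE0 : (0 : ℝ) < E := by linarith
  have hE3 : 3 / (E : ℝ) ≤ 3 := by
    rw [div_le_iff₀ hE0]
    linarith
  have hE30 : 0 < 3 / (E : ℝ) := by positivity
  obtain ⟨c₀, hc₀⟩ : ∃ c₀ : ℝ, c₀ = D + 4 * (W + 1) := ⟨_, rfl⟩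
  rw [← hc₀]
  have hk3 : (3 : ℝ) ≤ k := by exact_mod_cast hk
  have hkK : (k : ℝ) ≤ K := by exact_mod_cast (by omega : k ≤ K)
  have hk0 : (0 : ℝ) < k := by linarith
  have hlogk : 1 ≤ Real.log k := by
    rw [Real.le_log_iff_exp_le hk0]
    have := Real.exp_one_lt_d9
    linarith
  have hlogkK : Real.log k ≤ Real.log K := Real.log_le_log hk0 hkK
  have hlogK : 1 ≤ Real.log K := hlogk.trans hlogkK
  have hDlog : (D : ℝ) * Real.log k ≤ D * Real.log K := mul_le_mul_of_nonneg_left hlogkK (Nat.cast_nonneg _)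
  have hWlog : (W : ℝ) * Real.log k ≤ W * Real.log K := mul_le_mul_of_nonneg_left hlogkK (Nat.cast_nonneg _)
  have heK : ((e : ℝ) + 1) ≤ (W + 1) * Real.log K := by linarith
  have hc₀K : (D : ℝ) * Real.log k + 4 * (e + 1) ≤ c₀ * Real.log K := by
    rw [hc₀, add_mul]
    have : (4 : ℝ) * (e + 1) ≤ 4 * (W + 1) * Real.log K := by linarith
    linarith
  have hDk : 0 ≤ (D : ℝ) * Real.log k := by positivity
  have hℓr : (ℓ : ℝ) ≤ e := by exact_mod_cast hℓ
  refine ⟨fun w hw => ?_, fun w hw => ?_, ?_⟩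
  · rcases Nat.lt_or_ge (k + ℓ) w with h | h
    · have g1 := hbot k le_rfl
      rw [hcard (fun i => 0 ≤ i ∧ i < w) (fun j => j < k) (fun j hj => by have := hJk j hj; omega)]
      have g3 : (w : ℝ) ≤ k + (e + 1) := by exact_mod_cast (by omega : w ≤ k + (e + 1))
      have g4 : (1 / 2 + 3 / (E : ℝ)) * w ≤ (1 / 2 + 3 / (E : ℝ)) * (k + (e + 1)) := mul_le_mul_of_nonneg_left g3 (by positivity)
      have g5 : (1 / 2 + 3 / (E : ℝ)) * k ≤ (1 / 2 + δ) * k := mul_le_mul_of_nonneg_right (by linarith) hk0.le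
      have g6 : (1 / 2 + 3 / (E : ℝ)) * (e + 1) ≤ 4 * (e + 1) := mul_le_mul_of_nonneg_right (by linarith) (by positivity)
      linarith
    · have g1 := hbot (w - ℓ) (by omega)
      rw [hcard (fun i => 0 ≤ i ∧ i < w) (fun j => j < w - ℓ) (fun j hj => by omega)]
      have g3 : (w : ℝ) ≤ ((w - ℓ : ℕ) : ℝ) + (e + 1) := by exact_mod_cast (by omega : w ≤ (w - ℓ) + (e + 1))
      have g4 : (1 / 2 + 3 / (E : ℝ)) * w ≤ (1 / 2 + 3 / (E : ℝ)) * (((w - ℓ : ℕ) : ℝ) + (e + 1)) :=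
        mul_le_mul_of_nonneg_left g3 (by positivity)
      have g5 : (1 / 2 + 3 / (E : ℝ)) * ((w - ℓ : ℕ) : ℝ) ≤ (1 / 2 + δ) * ((w - ℓ : ℕ) : ℝ) :=
        mul_le_mul_of_nonneg_right (by linarith) (Nat.cast_nonneg _)
      have g6 : (1 / 2 + 3 / (E : ℝ)) * (e + 1) ≤ 4 * (e + 1) := mul_le_mul_of_nonneg_right (by linarith) (by positivity)
      linarith
  · rcases Nat.lt_or_ge w (e + 1 - ℓ) with h | h
    · have g1 : (w : ℝ) ≤ e + 1 := by exact_mod_cast (by omega : w ≤ e + 1)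
      have g2 : 3 / (E : ℝ) * w ≤ 3 * (e + 1) := mul_le_mul hE3 g1 (Nat.cast_nonneg _) (by norm_num)
      have g3 : (0 : ℝ) ≤ (((J.image (fun i => i + ℓ)).filter (fun i => K + 1 - w ≤ i ∧ i < K + 1)).card : ℝ) := Nat.cast_nonneg _
      have g4 : (0 : ℝ) ≤ e + 1 := by positivity
      linarith
    · obtain ⟨m, hm⟩ : ∃ m, m = min (w - (e + 1 - ℓ)) k := ⟨_, rfl⟩
      have g1 := htop m (by omega)
      rw [hcard (fun i => K + 1 - w ≤ i ∧ i < K + 1) (fun j => k - m ≤ j) (fun j hj => by have := hJk j hj; omega)]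
      have g3 : (w : ℝ) ≤ m + (e + 1) := by exact_mod_cast (by omega : w ≤ m + (e + 1))
      have g4 : 3 / (E : ℝ) * w ≤ 3 / (E : ℝ) * (m + (e + 1)) := mul_le_mul_of_nonneg_left g3 hE30.le
      have g5 : 3 / (E : ℝ) * m ≤ δ * m := mul_le_mul_of_nonneg_right hEδ2 (Nat.cast_nonneg _)
      have g6 : 3 / (E : ℝ) * (e + 1) ≤ 3 * (e + 1) := mul_le_mul_of_nonneg_right hE3 (by positivity)
      have g7 : (0 : ℝ) ≤ e + 1 := by positivity
      linarith
  · have g2 : ((J.image (fun i => i + ℓ)).filter (fun i => 0 ≤ i ∧ i < K + 1)).card = J.card := by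
      rw [hcard (fun i => 0 ≤ i ∧ i < K + 1) (fun _ => True) (fun j hj => by have := hJk j hj; simp; omega)]
      simp
    rw [g2]
    have g3 : (K : ℝ) = k + e := by rw [hK]; push_cast; ring
    rw [g3, mul_add]
    have g5 : (3 / 5 + 3 / (E : ℝ)) * k ≤ (3 / 5 + δ) * k := mul_le_mul_of_nonneg_right (by linarith) hk0.le
    have g6 : (3 / 5 + 3 / (E : ℝ)) * e ≤ 4 * e := mul_le_mul_of_nonneg_right (by linarith) (by positivity)
    rw [← g3]
    linarith

open Classical in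
/-- the exponential sums are small at the frequencies with many good positions -/
theorem char_goodJ (hb : 2 ≤ b) (Δ : ℕ) (η : ℝ) (hη : 0 < η) (c : ℝ) (hc0 : 0 < c) (hc1 : c ≤ 1 / 4) (V : ℕ) :
    ∃ D : ℕ, ∀ K : ℕ, 1 ≤ K → ∀ m, m ≤ K → ∀ I A p, FieldJ b m Δ η I A p → ∀ θ : ℝ,
    D * (Nat.log b K + 1) ≤ ((range m).filter (fun j : ℕ => j ∈ I ∧ Gd b c ((b : ℝ) ^ j * θ))).card →
    ‖∑ v ∈ range (b ^ m), (p v : ℂ) * ee (v * θ)‖ ≤ 1 / (K : ℝ) ^ V := by
  classical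
  rcases le_or_gt η (1 / 2) with hη2 | hη2
  swap
  · refine ⟨1, fun K hK m hm I A p hF θ ht => ?_⟩
    have hne : ((range m).filter (fun j : ℕ => j ∈ I ∧ Gd b c ((b : ℝ) ^ j * θ))).Nonempty := by
      rw [← card_pos]
      omega
    obtain ⟨i, hi⟩ := hne
    rw [mem_filter, mem_range] at hi
    exact absurd (eta_half hF i hi.1 hi.2.1) (by linarith)
  obtain ⟨μ, hμ⟩ : ∃ μ, μ = 1 - η * c := ⟨_, rfl⟩
  have hηc : η * c ≤ 1 / 2 := by nlinarith
  have hηc0 : 0 < η * c := mul_pos hη hc0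
  have hμ0 : 0 ≤ μ := by rw [hμ]; linarith
  have hμ1 : μ < 1 := by rw [hμ]; linarith
  obtain ⟨D', hD'⟩ := exists_pow_lt_of_lt_one (show 0 < (1 / (b : ℝ)) ^ V by positivity) hμ1
  obtain ⟨M, hM⟩ : ∃ M, M = (Δ + 1) ^ 3 := ⟨_, rfl⟩
  refine ⟨M * D', fun K hK m hm I A p hF θ ht => ?_⟩
  obtain ⟨Lg, hLg⟩ : ∃ Lg, Lg = Nat.log b K + 1 := ⟨_, rfl⟩
  obtain ⟨G, hG⟩ : ∃ G : Finset ℕ, G = (range m).filter (fun j => j ∈ I ∧ Gd b c ((b : ℝ) ^ j * θ)) := ⟨_, rfl⟩
  rw [← hG, ← hLg] at ht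
  obtain ⟨S, hSG, hS1, hS2⟩ := greedy hF.symm hF.degree G.card G (fun i hi => by
    rw [hG, mem_filter, mem_range] at hi
    exact hi.1) le_rfl
  have h1 := char_field hb hF c θ hη.le (by linarith) S (fun i hi => by
    have := hSG hi
    rw [hG, mem_filter, mem_range] at this
    exact this.1) (fun i hi => by
    have := hSG hi
    rw [hG, mem_filter, mem_range] at this
    exact this.2.1) hS1 (fun i hi => by
    have := hSG hi
    rw [hG, mem_filter, mem_range] at this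
    exact this.2.2)
  refine h1.trans ?_
  rw [← hμ]
  have h2 : D' * Lg ≤ S.card := by
    rw [← hM] at hS2
    have e2 : M * D' * Lg = M * (D' * Lg) := by ring
    have h3 : M * (D' * Lg) ≤ M * S.card := by
      rw [← e2]
      exact ht.trans hS2
    exact Nat.le_of_mul_le_mul_left h3 (by rw [hM]; positivity)
  refine (pow_le_pow_of_le_one hμ0 hμ1.le h2).trans ?_
  rw [hLg]
  exact pow_log_le b hb μ hμ0 _ D' hD'.le K hK

set_option maxHeartbeats 1000000 in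
/-- all the multiples of a random integer whose digits form a random field, with a rich set of flexible positions, have a thin
large spectrum -/
theorem gf_tlawJ (b Δ : ℕ) (hb : 2 ≤ b) (η : ℝ) (hη0 : 0 < η) (δ : ℝ) (D₀ : ℕ)
    (κκ : ℤ) (hκκ : κκ ≠ 0) (E : ℕ) (hE : 1 ≤ E) (hEδ : 3 / (E : ℝ) ≤ δ) (W V : ℕ) :
    ∃ c m₀ : ℕ, ∀ m : ℕ, m₀ ≤ m → ∀ e : ℕ, (e : ℝ) ≤ W * Real.log m →
    ∀ h : ℕ, 1 ≤ h → Nat.log b (Nf b κκ * h) ≤ e → ∀ I A p, Rich δ D₀ m I → FieldJ b m Δ η I A p → ∀ cc : ℤ,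
    TLaw b E c V (m + e) (range (b ^ m)) p (fun v : ℕ => (h : ℤ) * (cc + κκ * v)) := by
  classical
  obtain ⟨κ', ε', hκ'0, hε0, hκ'eq, hthin⟩ := thin_of b b E hb (by omega) (by omega)
  have hBr : (2 : ℝ) ≤ b := by exact_mod_cast hb
  have hB0 : (0 : ℝ) < b := by linarith
  have hF1 : (1 : ℝ) ≤ (b.factorial : ℝ) := by exact_mod_cast b.factorial_pos
  have hκ'1 : κ' ≤ 1 / 4 := by
    rw [hκ'eq]
    apply one_div_le_one_div_of_le (by norm_num)
    nlinarith [mul_pos hB0 hB0]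
  obtain ⟨cg, hcg⟩ : ∃ cg, cg = 4 * (κ' / (b.factorial : ℝ)) ^ 2 := ⟨_, rfl⟩
  have hcg0 : 0 < cg := by rw [hcg]; positivity
  have hcg1 : cg ≤ 1 / 4 := by
    have e1 : κ' / (b.factorial : ℝ) ≤ 1 / 4 := (div_le_self hκ'0.le hF1).trans hκ'1
    have e2 : 0 ≤ κ' / (b.factorial : ℝ) := by positivity
    rw [hcg]
    nlinarith
  obtain ⟨D, hchar⟩ := char_goodJ hb Δ η hη0 cg hcg0 hcg1 V
  obtain ⟨c, K₂, hthin⟩ := hthin ((D₀ : ℝ) + 4 * (W + 1)) ((3 * D : ℕ) : ℝ)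
  refine ⟨c, K₂ + 3, fun m hm e he h hh1 hh2 I A p hR hF cc => ?_⟩
  obtain ⟨K, hK⟩ : ∃ K, K = m + e := ⟨_, rfl⟩
  rw [← hK]
  obtain ⟨a, ha⟩ : ∃ a, a = Nf b κκ * h := ⟨_, rfl⟩
  rw [← ha] at hh2
  have ha0 : 0 < a := by
    rw [ha]
    exact Nat.mul_pos (Nf_pos b κκ hκκ) hh1
  obtain ⟨ℓ, hℓ⟩ : ∃ ℓ, ℓ = Nat.log b a := ⟨_, rfl⟩
  rw [← hℓ] at hh2
  have hℓ1 : b ^ ℓ ≤ a := by rw [hℓ]; exact Nat.pow_log_le_self b (by omega)
  have hℓ2 : a < b ^ (ℓ + 1) := by rw [hℓ]; exact Nat.lt_pow_succ_log_self (by omega) a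
  have hK3 : (3 : ℝ) ≤ K := by exact_mod_cast (by omega : 3 ≤ K)
  have hlogK : 1 ≤ Real.log K := by
    rw [Real.le_log_iff_exp_le (by linarith)]
    have := Real.exp_one_lt_d9
    linarith
  refine ⟨fun v _ => hF.nonneg v, hF.sum.le, ?_⟩
  have hIm : ∀ i ∈ I, i < m := hR.1
  obtain ⟨I', hI'⟩ : ∃ I', I' = I.image (fun i => i + ℓ) := ⟨_, rfl⟩
  have hI'm : ∀ i ∈ I', ℓ ≤ i ∧ i - ℓ ∈ I ∧ i - ℓ < m := by
    intro i hi
    rw [hI', mem_image] at hi
    obtain ⟨j, hj, rfl⟩ := hi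
    rw [Nat.add_sub_cancel]
    exact ⟨Nat.le_add_left _ _, hj, hIm j hj⟩
  refine hthin K (by omega) I' (by rw [hI']; exact dense_shift δ D₀ m e ℓ E W K hE hEδ (by omega) hK hh2 he I hR) _ ?_ ?_
  · intro t ht
    unfold Spec at ht
    rw [mem_filter, mem_range] at ht
    exact ht.1
  · intro T' hT'
    refine ⟨fun i => a * b ^ (i - ℓ), ?_, T', Subset.refl _, by omega, ?_⟩
    · intro j hj
      have hjl := (hI'm j hj).1
      have e1 : b ^ ℓ * b ^ (j - ℓ) = b ^ j := by rw [← pow_add]; congr 1; omega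
      have e2 : b ^ (ℓ + 1) * b ^ (j - ℓ) = b * b ^ j := by rw [← e1, pow_succ]; ring
      constructor
      · calc b ^ j = b ^ ℓ * b ^ (j - ℓ) := e1.symm
          _ ≤ a * b ^ (j - ℓ) := Nat.mul_le_mul_right _ hℓ1
          _ ≤ b * (a * b ^ (j - ℓ)) := Nat.le_mul_of_pos_left _ (by omega)
      · calc a * b ^ (j - ℓ) ≤ b ^ (ℓ + 1) * b ^ (j - ℓ) := Nat.mul_le_mul_right _ hℓ2.le
          _ = b * b ^ j := e2
    · intro t ht
      have hts := hT' ht
      unfold Spec at hts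
      rw [mem_filter, mem_range] at hts
      obtain ⟨_, hts2⟩ := hts
      obtain ⟨θ0, hθ0⟩ : ∃ θ0, θ0 = (t : ℝ) / ((b ^ (K + 1) : ℕ) : ℝ) := ⟨_, rfl⟩
      obtain ⟨θ, hθ⟩ : ∃ θ : ℝ, θ = (((h : ℤ) * κκ : ℤ) : ℝ) * θ0 := ⟨_, rfl⟩
      have hchr : ‖∑ v ∈ range (b ^ m), ((p v : ℝ) : ℂ) * ee ((((h : ℤ) * (cc + κκ * (v : ℕ)) : ℤ) : ℝ) * θ0)‖ =
          ‖∑ v ∈ range (b ^ m), (p v : ℂ) * ee (v * θ)‖ := by
        have h2 : ∑ v ∈ range (b ^ m), ((p v : ℝ) : ℂ) * ee ((((h : ℤ) * (cc + κκ * (v : ℕ)) : ℤ) : ℝ) * θ0) =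
            ee ((((h : ℤ) * cc : ℤ) : ℝ) * θ0) * ∑ v ∈ range (b ^ m), (p v : ℂ) * ee (v * θ) := by
          rw [mul_sum]
          apply sum_congr rfl
          intro v _
          have : ((((h : ℤ) * (cc + κκ * (v : ℕ)) : ℤ) : ℝ) * θ0) = (((h : ℤ) * cc : ℤ) : ℝ) * θ0 + v * θ := by
            rw [hθ]
            push_cast
            ring
          rw [this, ee_add]
          ring
        rw [h2, norm_mul, norm_ee, one_mul]
      rw [← hθ0, hchr] at hts2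
      -- the number of the good positions is small
      have hgc : ((range m).filter (fun j : ℕ => j ∈ I ∧ Gd b cg ((b : ℝ) ^ j * θ))).card <
          D * (Nat.log b K + 1) := by
        by_contra hcon
        push Not at hcon
        have h1 := hchar K (by omega) m (by omega) I A p hF θ hcon
        linarith
      -- all the far positions are good
      have hfar : ∀ J' ⊆ I', ((J'.filter (fun i =>
          Far κ' (fun i => a * b ^ (i - ℓ)) (fun t : ℕ => (t : ℝ) / ((b ^ (K + 1) : ℕ) : ℝ)) i t)).card : ℝ) ≤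
          ((3 * D : ℕ) : ℝ) * Real.log K := by
        intro J' hJ'
        have h1 : (J'.filter (fun i => Far κ' (fun i => a * b ^ (i - ℓ)) (fun t : ℕ => (t : ℝ) / ((b ^ (K + 1) : ℕ) : ℝ)) i t)).card ≤
            ((range m).filter (fun j : ℕ => j ∈ I ∧ Gd b cg ((b : ℝ) ^ j * θ))).card := by
          apply card_le_card_of_injOn (fun i => i - ℓ)
          · intro i hi
            rw [Finset.mem_coe, mem_filter] at hi
            obtain ⟨hi1, hi2⟩ := hi
            obtain ⟨hi3, hi4, hi5⟩ := hI'm i (hJ' hi1)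
            rw [Finset.mem_coe, mem_filter, mem_range]
            dsimp only
            refine ⟨hi5, hi4, ?_⟩
            unfold Far at hi2
            dsimp only at hi2
            rw [← hθ0] at hi2
            rw [hcg]
            refine gd_far b hb κ' hκ'0.le _ _ ?_ hi2
            have ea : ((a * b ^ (i - ℓ) : ℕ) : ℝ) = (b.factorial : ℝ) * |(κκ : ℝ)| * h * (b : ℝ) ^ (i - ℓ) := by
              rw [ha]
              unfold Nf
              push_cast
              rw [Nat.cast_natAbs]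
              push_cast
              ring
            rw [ea, hθ]
            have e3 : (b.factorial : ℝ) * ((b : ℝ) ^ (i - ℓ) * ((((h : ℤ) * κκ : ℤ) : ℝ) * θ0)) =
                ((b.factorial : ℝ) * h * (b : ℝ) ^ (i - ℓ)) * (κκ * θ0) := by
              push_cast; ring
            have e4 : (b.factorial : ℝ) * |(κκ : ℝ)| * h * (b : ℝ) ^ (i - ℓ) * θ0 =
                ((b.factorial : ℝ) * h * (b : ℝ) ^ (i - ℓ)) * (|(κκ : ℝ)| * θ0) := by ring
            rw [e3, e4]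
            simp only [abs_mul, abs_abs]
          · intro i hi j hj hij
            rw [Finset.mem_coe, mem_filter] at hi hj
            have hi3 := (hI'm i (hJ' hi.1)).1
            have hj3 := (hI'm j (hJ' hj.1)).1
            simp only at hij
            omega
        have h2 : (J'.filter (fun i => Far κ' (fun i => a * b ^ (i - ℓ)) (fun t : ℕ => (t : ℝ) / ((b ^ (K + 1) : ℕ) : ℝ)) i t)).card ≤
            D * (Nat.log b K + 1) := h1.trans hgc.le
        have h3 : (Nat.log b K : ℝ) ≤ 2 * Real.log K := by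
          have g1 : (b : ℝ) ^ (Nat.log b K) ≤ K := by exact_mod_cast Nat.pow_log_le_self b (by omega)
          have g2 := Real.log_le_log (by positivity) g1
          rw [Real.log_pow] at g2
          have g3 : (1 : ℝ) / 2 ≤ Real.log b := by
            have := Real.log_two_gt_d9
            have := Real.log_le_log (by norm_num) hBr
            linarith
          have g4 : (0 : ℝ) ≤ (Nat.log b K : ℝ) := Nat.cast_nonneg _
          nlinarith
        have h4 : ((J'.filter (fun i => Far κ' (fun i => a * b ^ (i - ℓ)) (fun t : ℕ => (t : ℝ) / ((b ^ (K + 1) : ℕ) : ℝ)) i t)).card : ℝ) ≤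
            D * ((Nat.log b K : ℝ) + 1) := by exact_mod_cast h2
        refine h4.trans ?_
        push_cast
        have hD0 : (0 : ℝ) ≤ D := Nat.cast_nonneg _
        nlinarith
      have hε1 : ∀ w : ℕ, 0 ≤ ε' * (w : ℝ) := fun w => by positivity
      constructor
      · intro w _
        have h1 := hfar (I'.filter (fun i => 0 ≤ i ∧ i < w)) (filter_subset _ _)
        rw [filter_filter] at h1
        have h2 : I'.filter (fun i => 0 ≤ i ∧ i < w ∧ Far κ' (fun i => a * b ^ (i - ℓ))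
            (fun t : ℕ => (t : ℝ) / ((b ^ (K + 1) : ℕ) : ℝ)) i t) =
            I'.filter (fun i => (0 ≤ i ∧ i < w) ∧ Far κ' (fun i => a * b ^ (i - ℓ))
            (fun t : ℕ => (t : ℝ) / ((b ^ (K + 1) : ℕ) : ℝ)) i t) := by
          apply filter_congr
          intro i _
          rw [and_assoc]
        rw [h2]
        have h3 := hε1 w
        linarith
      · intro w _
        have h1 := hfar (I'.filter (fun i => K + 1 - w ≤ i ∧ i < K + 1)) (filter_subset _ _)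
        rw [filter_filter] at h1
        have h2 : I'.filter (fun i => K + 1 - w ≤ i ∧ i < K + 1 ∧ Far κ' (fun i => a * b ^ (i - ℓ))
            (fun t : ℕ => (t : ℝ) / ((b ^ (K + 1) : ℕ) : ℝ)) i t) =
            I'.filter (fun i => (K + 1 - w ≤ i ∧ i < K + 1) ∧ Far κ' (fun i => a * b ^ (i - ℓ))
            (fun t : ℕ => (t : ℝ) / ((b ^ (K + 1) : ℕ) : ℝ)) i t) := by
          apply filter_congr
          intro i _
          rw [and_assoc]
        rw [h2]
        have h3 := hε1 w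
        linarith

open Classical in
open Pool.Agent.W93.PG (WinP) in
/-- Goldbach's problem for all the integers near all the multiples of the integers near a random integer -/
theorem j_windows (b Δ : ℕ) (hb : 2 ≤ b) (η : ℝ) (hη0 : 0 < η) (δ : ℝ) (hδ : 0 < δ) (D₀ : ℕ) (κ : ℤ) (hκ : κ ≠ 0)
    (B J W A U m₀ : ℕ) (ε : ℝ) (hε : 0 < ε) (P : ℕ → Prop)
    (hP : ∀ m : ℕ, m₀ ≤ m → 2 ∣ m → WinP ε A m → P m) : ∃ k₀ : ℕ, ∀ k : ℕ, k₀ ≤ k →
    ∀ G I p, Rich δ D₀ k I → FieldJ b k Δ η I G p → ∀ c : ℤ, |c| ≤ B * (b : ℤ) ^ k →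
    ∀ Q : ℕ → Prop, (∀ v, ¬ Q v → ∃ h : ℕ, 1 ≤ h ∧ h ≤ k ^ J ∧ ∃ s : ℤ, |s| ≤ (k : ℤ) ^ W ∧
      0 < (h : ℤ) * (c + s + κ * v) ∧ 2 ∣ (h : ℤ) * (c + s + κ * v) ∧ ¬ P ((h : ℤ) * (c + s + κ * v)).toNat) →
    ∑ v ∈ range (b ^ k), (if Q v then 0 else p v) ≤ 1 / (k : ℝ) ^ U := by
  obtain ⟨E, hEδ⟩ := exists_nat_ge (3 / δ + 1)
  have hEr : (1 : ℝ) ≤ E := by
    have : 0 < 3 / δ := by positivity
    linarith
  have hE : 1 ≤ E := by exact_mod_cast hEr
  have hE0 : (0 : ℝ) < E := by linarith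
  have hEδ2 : 3 / (E : ℝ) ≤ δ := by
    rw [div_le_iff₀ hE0]
    have h1 : 3 / δ ≤ E := by linarith
    rw [div_le_iff₀ hδ] at h1
    linarith
  obtain ⟨F, hFd⟩ : ∃ F, F = Nf b κ := ⟨_, rfl⟩
  have hF : 1 ≤ F := by rw [hFd]; exact Nf_pos b κ hκ
  have hlaw := gf_tlawJ b Δ hb η hη0 δ D₀ κ hκ E hE hEδ2
  rw [← hFd] at hlaw
  obtain ⟨U', hU'⟩ : ∃ U', U' = U + J + W + 1 := ⟨_, rfl⟩
  obtain ⟨e₀, he₀⟩ : ∃ e₀, e₀ = F + (B + κ.natAbs + 1) + 2 := ⟨_, rfl⟩
  obtain ⟨c₁, m₁, h1⟩ := hlaw (3 * J + e₀) (U' + 3)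
  obtain ⟨V, hV⟩ := Pool.Agent.Y885.tl_windows b hb E c₁ A U' m₀ hE ε hε P hP
  obtain ⟨c₂, m₂, h2⟩ := hlaw (3 * J + e₀) V
  obtain ⟨K₀, h3⟩ := hV c₂
  obtain ⟨k4, h4⟩ := pow_le_pow_digits b hb W
  refine ⟨m₁ + m₂ + K₀ + k4 + 3, fun k hk G I p hR hp c hc Q hQ => ?_⟩
  refine union J W U k (by omega) (b ^ k) p hp.nonneg
    (fun h s v => 0 < (h : ℤ) * (c + s + κ * v) ∧ 2 ∣ (h : ℤ) * (c + s + κ * v) ∧ ¬ P ((h : ℤ) * (c + s + κ * v)).toNat) Q hQ ?_
  intro h hh1 hh2 s hs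
  obtain ⟨e, he⟩ : ∃ e, e = ex b J e₀ k := ⟨_, rfl⟩
  have hee : e = J * (Nat.log b k + 1) + e₀ := by rw [he]; rfl
  have hlogF := log_ex b J F hb k h hF hh1 hh2
  have heW : (e : ℝ) ≤ ((3 * J + e₀ : ℕ) : ℝ) * Real.log k := by rw [he]; exact ex_le b J e₀ hb k (by omega)
  obtain ⟨K, hK⟩ : ∃ K, K = k + e - 2 := ⟨_, rfl⟩
  have hK2 : K + 2 = k + e := by omega
  have t1 := h1 k (by omega) e heW h hh1 (by omega) I G p hR hp (c + s)
  have t2 := h2 k (by omega) e heW h hh1 (by omega) I G p hR hp (c + s)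
  rw [← hK2] at t1 t2
  have key := h3 K (by omega) ℕ (range (b ^ k)) p (fun v : ℕ => (h : ℤ) * (c + s + κ * v)) t1 t2 (by
    intro v hv
    rw [mem_range] at hv
    refine (val_ex b J W B hb κ k (h4 k (by omega)) c s hc hs h hh2 v hv).trans ?_
    apply pow_le_pow_right₀ (by exact_mod_cast (by omega : 1 ≤ b))
    omega) (fun v => 0 < (h : ℤ) * (c + s + κ * v) ∧ 2 ∣ (h : ℤ) * (c + s + κ * v) ∧
      ¬ P ((h : ℤ) * (c + s + κ * v)).toNat) (fun _ => Classical.propDecidable _) (fun v _ hv => hv)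
  refine key.trans ?_
  have hk0 : (0 : ℝ) < k := by exact_mod_cast (by omega : 0 < k)
  rw [← hU']
  apply one_div_le_one_div_of_le (by positivity)
  apply pow_le_pow_left₀ hk0.le
  exact_mod_cast (by omega : k ≤ K)

end Pool.Agent.L7h18.RM
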