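import Pool.Agent.N625.PT.I
import Pool.Agent.L7h18.RM.LawJ

set_option autoImplicit false

/-! Tuples of primes: the shifts are the multiples of the neighbours of independent random integers whose digits form random
fields, up to two fifths of the digits being prescribed (after `Pool.Agent.N625.PT.I`). -/

namespace Pool.Agent.L7h18.RM
open Finset
open Pool.Agent.Y885 (TLaw Thin Spec HLs_mono Rich)
open Pool.Agent.W93.TD (HLs)
open Pool.Agent.N625.PT (ex ex_le pow_ex pow_le_pow_digits union_gen tlaw_mono_c)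

variable {b : ℕ}

/-- the level for a given scale -/
lemma level' (b : ℕ) (hb : 2 ≤ b) (J J₂ R M₁ M₂ k N : ℕ) (hk : 1 ≤ k) (hM1 : 1 ≤ M₁) (hM2 : M₂ = M₁ * R + 1)
    (h1 : k ^ J * b ^ k ≤ R * N) (h2 : N ≤ k ^ J₂ * b ^ k) :
    ∃ e : ℕ, M₂ * N ≤ b ^ (k + e) ∧ b ^ (k + e) ≤ b * M₂ * N ∧ e ≤ J₂ * (Nat.log b k + 1) + (M₂ + 1) ∧ M₁ * k ^ J ≤ b ^ e := by
  have hbk : 0 < b ^ k := by positivity
  have hkJ : 0 < k ^ J := by positivity
  have hN : b ^ k ≤ R * N := le_trans (Nat.le_mul_of_pos_left _ hkJ) h1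
  have hN0 : 0 < N := by
    rcases Nat.eq_zero_or_pos N with h | h
    · rw [h, mul_zero] at hN
      omega
    · exact h
  have hRM : M₁ * (R * N) + N = M₂ * N := by rw [hM2]; ring
  have hRM2 : R * N ≤ M₁ * (R * N) := Nat.le_mul_of_pos_left _ (by omega)
  have hM20 : 1 < M₂ * N := by
    have : 1 ≤ R * N := by omega
    omega
  obtain ⟨K, hK⟩ : ∃ K, K = Nat.clog b (M₂ * N) := ⟨_, rfl⟩
  have a1 : M₂ * N ≤ b ^ K := by rw [hK]; exact Nat.le_pow_clog (by omega) _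
  have a2 : b ^ K.pred < M₂ * N := by rw [hK]; exact Nat.pow_pred_clog_lt_self (by omega) hM20
  have hkK : k < K := by
    have : b ^ k < b ^ K := by omega
    exact (Nat.pow_lt_pow_iff_right (by omega)).1 this
  obtain ⟨e, he⟩ : ∃ e, K = k + e := ⟨K - k, by omega⟩
  refine ⟨e, by rw [← he]; exact a1, ?_, ?_, ?_⟩
  · rw [← he]
    have e1 : b ^ K = b * b ^ K.pred := by
      conv_lhs => rw [← Nat.succ_pred_eq_of_pos (show 0 < K by omega), pow_succ]
      ring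
    rw [e1]
    calc b * b ^ K.pred ≤ b * (M₂ * N) := Nat.mul_le_mul_left _ a2.le
      _ = b * M₂ * N := by ring
  · have h3 : b ^ K.pred < b ^ (k + (J₂ * (Nat.log b k + 1) + (M₂ + 1))) := by
      refine lt_of_lt_of_le a2 ?_
      have h4 := pow_ex b J₂ hb k
      have h5 : M₂ ≤ b ^ (M₂ + 1) :=
        (Nat.lt_pow_self (n := M₂) (a := b) (by omega)).le.trans (Nat.pow_le_pow_right (by omega) (by omega))
      calc M₂ * N ≤ M₂ * (k ^ J₂ * b ^ k) := Nat.mul_le_mul_left _ h2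
        _ ≤ b ^ (M₂ + 1) * (b ^ (J₂ * (Nat.log b k + 1)) * b ^ k) := Nat.mul_le_mul h5 (Nat.mul_le_mul_right _ h4)
        _ = _ := by rw [← pow_add, ← pow_add]; congr 1; ring
    have h5 := (Nat.pow_lt_pow_iff_right (show 1 < b by omega)).1 h3
    rw [Nat.pred_eq_sub_one] at h5
    omega
  · have h6 : M₁ * k ^ J * b ^ k ≤ b ^ e * b ^ k := by
      calc M₁ * k ^ J * b ^ k = M₁ * (k ^ J * b ^ k) := by ring
        _ ≤ M₁ * (R * N) := Nat.mul_le_mul_left _ h1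
        _ ≤ M₂ * N := by omega
        _ ≤ b ^ K := a1
        _ = b ^ e * b ^ k := by rw [he, pow_add, mul_comm]
    exact Nat.le_of_mul_le_mul_right h6 hbk

open Classical in
/-- prime tuples for all the multiples of the integers near independent random integers -/
theorem j_tuples (s : ℕ) (hs : 1 ≤ s) (hb : 2 ≤ b) (Δ : Fin s → ℕ) (η : Fin s → ℝ) (hη : ∀ i, 0 < η i) (δ : ℝ) (hδ : 0 < δ)
    (D₀ : ℕ) (κ : Fin s → ℤ) (hκ : ∀ i, κ i ≠ 0) (B R J J₂ W U : ℕ) (ε : ℝ) (hε : 0 < ε) : ∃ k₀ : ℕ, ∀ k : ℕ, k₀ ≤ k →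
    ∀ (G : Fin s → ℕ → ℕ → Prop) (II : Fin s → Finset ℕ) (p : Fin s → ℕ → ℝ), (∀ i, Rich δ D₀ k (II i)) →
    (∀ i, FieldJ b k (Δ i) (η i) (II i) (G i) (p i)) →
    ∀ c : Fin s → ℤ, (∀ i, |c i| ≤ B * (b : ℤ) ^ k) → ∀ N : ℕ, k ^ J * b ^ k ≤ R * N → N ≤ k ^ J₂ * b ^ k →
    ∑ v ∈ Fintype.piFinset (fun _ : Fin s => range (b ^ k)), (if ∀ h : Fin s → ℕ, (∀ i, 1 ≤ h i ∧ h i ≤ k ^ J) →
      ∀ q : Fin s → ℕ, (∀ i, |(q i : ℤ) - (c i + κ i * v i)| ≤ (k : ℤ) ^ W) → HLs ε U N (fun i => h i * q i)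
      then 0 else ∏ i, p i (v i)) ≤ 1 / (k : ℝ) ^ U := by
  obtain ⟨U', hU'⟩ : ∃ U', U' = U + s * (J + W + 1) := ⟨_, rfl⟩
  obtain ⟨E, hEδ⟩ := exists_nat_ge (3 / δ + 1)
  have hEr : (1 : ℝ) ≤ E := by
    have : 0 < 3 / δ := by positivity
    linarith
  have hE : 1 ≤ E := by exact_mod_cast hEr
  have hE0 : (0 : ℝ) < E := by linarith
  have hEδ2 : 3 / (E : ℝ) ≤ δ := by
    rw [div_le_iff₀ hE0]
    have h1 : 3 / δ ≤ E := by linarith
    rw [div_le_iff₀ hδ] at h1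
    linarith
  obtain ⟨F, hFd⟩ : ∃ F : Fin s → ℕ, F = fun i => Nf b (κ i) := ⟨_, rfl⟩
  have hlaw := fun i => gf_tlawJ b (Δ i) hb (η i) (hη i) δ D₀ (κ i) (hκ i) E hE hEδ2
  have hFe : ∀ i, Nf b (κ i) = F i := fun i => by rw [hFd]
  simp only [hFe] at hlaw
  obtain ⟨V, hV⟩ : ∃ V, V = 2 * (2 * U' + 5 + s + 2) + 6 := ⟨_, rfl⟩
  obtain ⟨F', hF'⟩ : ∃ F', F' = ∑ i, F i := ⟨_, rfl⟩
  obtain ⟨κ', hκ'⟩ : ∃ κ', κ' = ∑ i, (κ i).natAbs := ⟨_, rfl⟩
  obtain ⟨M₁, hM₁⟩ : ∃ M₁, M₁ = B + κ' + 1 + F' := ⟨_, rfl⟩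
  obtain ⟨M₂, hM₂⟩ : ∃ M₂, M₂ = M₁ * R + 1 := ⟨_, rfl⟩
  choose cc m₀ hlaw using fun i => hlaw i (3 * J₂ + (M₂ + 1)) V
  obtain ⟨c', hc'⟩ : ∃ c', c' = ∑ i, cc i := ⟨_, rfl⟩
  obtain ⟨m', hm'⟩ : ∃ m', m' = ∑ i, m₀ i := ⟨_, rfl⟩
  have hci : ∀ i, cc i ≤ c' := fun i => by rw [hc']; exact single_le_sum (fun _ _ => Nat.zero_le _) (mem_univ i)
  have hmi : ∀ i, m₀ i ≤ m' := fun i => by rw [hm']; exact single_le_sum (fun _ _ => Nat.zero_le _) (mem_univ i)
  have hFi : ∀ i, F i ≤ F' := fun i => by rw [hF']; exact single_le_sum (fun _ _ => Nat.zero_le _) (mem_univ i)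
  have hκi : ∀ i, (κ i).natAbs ≤ κ' := fun i => by rw [hκ']; exact single_le_sum (f := fun i => (κ i).natAbs) (fun _ _ => Nat.zero_le _) (mem_univ i)
  obtain ⟨K₀, hmain⟩ := Pool.Agent.Y885.tl_tuples s b E c' (b * M₂) U' hs hb hE ε hε
  obtain ⟨k4, h4⟩ := pow_le_pow_digits b hb W
  refine ⟨m' + K₀ + k4 + F' + B + κ' + 4 + 3 * R, fun k hk G II p hII hp c hc N hN1 hN2 => ?_⟩
  have hk3 : (3 : ℝ) ≤ k := by exact_mod_cast (by omega : 3 ≤ k)
  have hk0 : (0 : ℝ) < k := by linarith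
  obtain ⟨e, he1, he2, he3, he4⟩ := level' b hb J J₂ R M₁ M₂ k N (by omega) (by omega) hM₂ hN1 hN2
  have heW : (e : ℝ) ≤ ((3 * J₂ + (M₂ + 1) : ℕ) : ℝ) * Real.log k := by
    refine le_trans ?_ (ex_le b J₂ (M₂ + 1) hb k (by omega))
    exact_mod_cast he3
  have hkbk : k < b ^ k := Nat.lt_pow_self (by omega)
  have hRN : k < R * N := by
    refine lt_of_lt_of_le hkbk (le_trans ?_ hN1)
    exact Nat.le_mul_of_pos_left _ (Nat.pow_pos (by omega))
  have hN3 : 3 ≤ N := by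
    by_contra hcon
    push Not at hcon
    have : R * N ≤ R * 3 := Nat.mul_le_mul_left _ hcon.le
    omega
  obtain ⟨I, hI⟩ : ∃ I : Finset ((Fin s → ℕ) × (Fin s → ℤ)), I = Fintype.piFinset (fun _ : Fin s => Icc 1 (k ^ J)) ×ˢ
    Fintype.piFinset (fun _ : Fin s => Icc (-(k : ℤ) ^ W) ((k : ℤ) ^ W)) := ⟨_, rfl⟩
  have key := union_gen (Fintype.piFinset (fun _ : Fin s => range (b ^ k))) (fun v => ∏ i, p i (v i))
    (fun v _ => prod_nonneg fun i _ => (hp i).nonneg _) I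
    (fun hσ v => (∀ i, 0 ≤ (hσ.1 i : ℤ) * (c i + hσ.2 i + κ i * v i)) ∧
      ¬ HLs ε U' N (fun i => ((hσ.1 i : ℤ) * (c i + hσ.2 i + κ i * v i)).toNat))
    (fun v => ∀ h : Fin s → ℕ, (∀ i, 1 ≤ h i ∧ h i ≤ k ^ J) →
      ∀ q : Fin s → ℕ, (∀ i, |(q i : ℤ) - (c i + κ i * v i)| ≤ (k : ℤ) ^ W) → HLs ε U N (fun i => h i * q i)) (by
      intro v _ hv
      push Not at hv
      obtain ⟨h, hh, q, hq, hbad⟩ := hv
      refine ⟨(h, fun i => (q i : ℤ) - (c i + κ i * v i)), ?_, ?_⟩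
      · rw [hI, mem_product, Fintype.mem_piFinset, Fintype.mem_piFinset]
        refine ⟨fun i => mem_Icc.2 (hh i), fun i => ?_⟩
        rw [mem_Icc]
        exact abs_le.1 (hq i)
      · have e1 : ∀ i, (h i : ℤ) * (c i + ((q i : ℤ) - (c i + κ i * v i)) + κ i * v i) = ((h i * q i : ℕ) : ℤ) := by
          intro i
          push_cast
          ring
        simp only [e1, Int.toNat_natCast]
        refine ⟨fun i => by positivity, fun hgood => hbad ?_⟩
        exact HLs_mono (by omega) hN3 hgood) (1 / (k : ℝ) ^ U') (by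
      rintro ⟨h, σ⟩ hmem
      rw [hI, mem_product, Fintype.mem_piFinset, Fintype.mem_piFinset] at hmem
      obtain ⟨hh, hσ⟩ := hmem
      simp only at hh hσ
      have hhi : ∀ i, 1 ≤ h i ∧ h i ≤ k ^ J := fun i => mem_Icc.1 (hh i)
      have hσi : ∀ i, |σ i| ≤ (k : ℤ) ^ W := fun i => abs_le.2 (mem_Icc.1 (hσ i))
      have hlog : ∀ i, Nat.log b (F i * h i) ≤ e := by
        intro i
        have g1 : F i * h i ≤ b ^ e := by
          refine le_trans ?_ he4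
          exact Nat.mul_le_mul (by have := hFi i; omega) (hhi i).2
        calc Nat.log b (F i * h i) ≤ Nat.log b (b ^ e) := Nat.log_mono_right g1
          _ = e := Nat.log_pow (by omega) _
      have hsize : ∀ i, ∀ v ∈ range (b ^ k), |(h i : ℤ) * (c i + σ i + κ i * v)| ≤ (M₁ * R * N : ℕ) := by
        intro i v hv
        rw [mem_range] at hv
        have v0 : (0 : ℤ) ≤ (v : ℤ) := Int.natCast_nonneg _
        have v1 : ((v : ℕ) : ℤ) ≤ (b : ℤ) ^ k := by exact_mod_cast hv.le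
        have hbk : (0 : ℤ) ≤ (b : ℤ) ^ k := by positivity
        have hkW' : ((k : ℤ)) ^ W ≤ (b : ℤ) ^ k := by exact_mod_cast h4 k (by omega)
        have q1 := abs_add_le (c i + σ i) (κ i * (v : ℤ))
        have q2 := abs_add_le (c i) (σ i)
        have q3 : |κ i * (v : ℤ)| ≤ ((κ i).natAbs : ℤ) * (b : ℤ) ^ k := by
          rw [abs_mul, Int.abs_eq_natAbs (κ i), abs_of_nonneg v0]
          exact mul_le_mul_of_nonneg_left v1 (Int.natCast_nonneg _)
        have q4 : |c i + σ i + κ i * (v : ℤ)| ≤ ((B + (κ i).natAbs + 1 : ℕ) : ℤ) * (b : ℤ) ^ k := by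
          push_cast at q3 ⊢
          linarith [hc i, hσi i]
        rw [abs_mul, Nat.abs_cast]
        have q5 : ((B + (κ i).natAbs + 1 : ℕ) : ℤ) ≤ (M₁ : ℤ) := by
          have := hκi i
          exact_mod_cast (by omega : B + (κ i).natAbs + 1 ≤ M₁)
        have q6 : ((h i : ℕ) : ℤ) ≤ (k : ℤ) ^ J := by exact_mod_cast (hhi i).2
        calc (h i : ℤ) * |c i + σ i + κ i * (v : ℤ)| ≤ (k : ℤ) ^ J * ((M₁ : ℤ) * (b : ℤ) ^ k) :=
              mul_le_mul q6 (q4.trans (mul_le_mul_of_nonneg_right q5 hbk)) (abs_nonneg _) (by positivity)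
          _ = (M₁ : ℤ) * ((k : ℤ) ^ J * (b : ℤ) ^ k) := by ring
          _ ≤ (M₁ : ℤ) * ((R : ℤ) * N) := mul_le_mul_of_nonneg_left (by exact_mod_cast hN1) (Int.natCast_nonneg _)
          _ = (M₁ * R * N : ℕ) := by push_cast; ring
      have hNK : N ≤ b ^ (k + e) := by
        refine le_trans ?_ he1
        exact Nat.le_mul_of_pos_left _ (by omega)
      have t := hmain (k + e) (by omega) ℕ inferInstance (fun _ => range (b ^ k)) p
        (fun i v => (h i : ℤ) * (c i + σ i + κ i * v)) (fun i => by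
          have := hlaw i k (by have := hmi i; omega) e heW (h i) (hhi i).1 (hlog i) (II i) (G i) (p i) (hII i) (hp i) (c i + σ i)
          rw [← hV]
          exact tlaw_mono_c (by omega) (hci i) this) (fun i => (hp i).sum) N he2 hNK (by
          intro i v hv
          have h5 := hsize i v hv
          rw [abs_le] at h5
          have h6 : (((M₁ * R * N : ℕ) : ℤ) + (N : ℤ)) ≤ (b : ℤ) ^ (k + e) := by
            have : M₁ * R * N + N ≤ b ^ (k + e) := by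
              refine le_trans (le_of_eq ?_) he1
              rw [hM₂]
              ring
            exact_mod_cast this
          have h7 : (0 : ℤ) < N := by exact_mod_cast (by omega : 0 < N)
          constructor
          · linarith [h5.1]
          · linarith [h5.2])
        (fun v => (∀ i, 0 ≤ (h i : ℤ) * (c i + σ i + κ i * v i)) ∧
          ¬ HLs ε U' N (fun i => ((h i : ℤ) * (c i + σ i + κ i * v i)).toNat)) (fun _ => Classical.propDecidable _)
        (fun v _ hv => hv)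
      refine le_trans t ?_
      apply one_div_le_one_div_of_le (by positivity)
      apply pow_le_pow_left₀ hk0.le
      exact_mod_cast (by omega : k ≤ k + e))
  refine key.trans ?_
  have hcard : (I.card : ℝ) ≤ ((k : ℝ) ^ (J + W + 1)) ^ s := by
    rw [hI, card_product, Fintype.card_piFinset, Fintype.card_piFinset]
    simp only [Nat.card_Icc, Int.card_Icc, Nat.add_sub_cancel, prod_const, card_univ, Fintype.card_fin]
    push_cast
    rw [← mul_pow]
    apply pow_le_pow_left₀ (by positivity)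
    have e1 : (((k : ℤ) ^ W + 1 - -(k : ℤ) ^ W).toNat : ℝ) = 2 * (k : ℝ) ^ W + 1 := by
      have : (((k : ℤ) ^ W + 1 - -(k : ℤ) ^ W).toNat : ℤ) = 2 * (k : ℤ) ^ W + 1 := by
        have h0 : (0 : ℤ) ≤ (k : ℤ) ^ W := by positivity
        rw [Int.toNat_of_nonneg (by linarith)]
        ring
      exact_mod_cast this
    rw [e1]
    have e2 : (1 : ℝ) ≤ (k : ℝ) ^ W := one_le_pow₀ (by linarith)
    calc (k : ℝ) ^ J * (2 * (k : ℝ) ^ W + 1) ≤ (k : ℝ) ^ J * (k * (k : ℝ) ^ W) :=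
          mul_le_mul_of_nonneg_left (by nlinarith) (by positivity)
      _ = (k : ℝ) ^ (J + W + 1) := by ring
  calc (I.card : ℝ) * (1 / (k : ℝ) ^ U') ≤ ((k : ℝ) ^ (J + W + 1)) ^ s * (1 / (k : ℝ) ^ U') :=
        mul_le_mul_of_nonneg_right hcard (by positivity)
    _ = 1 / (k : ℝ) ^ U := by
        rw [hU', pow_add (k : ℝ) U, mul_comm s, pow_mul (k : ℝ) (J + W + 1) s]
        field_simp

end Pool.Agent.L7h18.RM
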